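import Pool.Agent.H88.EQ.LA
import Pool.Agent.H92.EHD.TR

/-!
# RW: the density over the one parameter family
-/

set_option autoImplicit false

namespace Pool.Agent.H51.EHD

open scoped BigOperators ComplexConjugate ContDiff ComplexOrder
open MeasureTheory Pool.Agent.H92.EQ Pool.Agent.H92.EHD Pool.Agent.H14.EQ
open Pool.Agent.H88.EQ.LArow (tl_ct ct_tl hessR_tl gd_tl gd_tl_zero gdb_tl wd_tl_zero wdb_tl_zero
  hess_tl_zero)

noncomputable section

/-! ### The rows and columns `0` of the slots -/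

theorem hess_row {N : ℕ} (φ : (Fin N → ℂ) → ℝ) (z : Fin (N + 1) → ℂ) (b : Fin (N + 1)) :
    hessR (fun w => φ (tl w)) z 0 b = 0 ∧ hessR (fun w => φ (tl w)) z b 0 = 0 := by
  have h0 : (fun w : Fin (N + 1) → ℂ => wdb 0 (fun w => ((φ (tl w) : ℝ) : ℂ)) w) = fun _ => 0 := by
    funext w
    exact wdb_tl_zero (fun x => ((φ x : ℝ) : ℂ)) w
  have h1 : ∀ a : Fin (N + 1), hessR (fun w => φ (tl w)) z a 0 = 0 := by
    intro a
    unfold hessR hess
    rw [h0]
    unfold wd
    simp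
  refine ⟨?_, h1 b⟩
  refine Fin.cases ?_ (fun j => ?_) b
  · exact h1 0
  · exact hess_tl_zero (fun x => ((φ x : ℝ) : ℂ)) z j

theorem rad_row {N : ℕ} (z : Fin (N + 1) → ℂ) (b : Fin (N + 1)) :
    RadT z 0 b = 0 ∧ RadT z b 0 = 0 := by
  have h0 : gd (cx ellT) z 0 = 0 := gd_tl_zero (ell : (Fin N → ℂ) → ℝ) z
  have h1 : gdb (cx ellT) z 0 = 0 := wdb_tl_zero (cx (ell : (Fin N → ℂ) → ℝ)) z
  unfold RadT out
  rw [h0, h1]
  exact ⟨zero_mul _, mul_zero _⟩

theorem rad_sub {N : ℕ} (h9 : T_W9) {z : Fin (N + 1) → ℂ} (hz : tl z ≠ 0) :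
    (RadT z).submatrix Fin.succ Fin.succ = Rad (tl z) := by
  have h := (h9 (Fin N)).2 (tl z) hz
  funext a b
  have e1 : gd (cx ellT) z a.succ = gd (cx ell) (tl z) a := gd_tl (ell : (Fin N → ℂ) → ℝ) z a
  have e2 : gdb (cx ellT) z b.succ = gdb (cx ell) (tl z) b :=
    gdb_tl (ell : (Fin N → ℂ) → ℝ) z b
  simp only [Matrix.submatrix_apply, RadT, out]
  rw [e1, e2]
  simp only [gd, gdb]
  rw [h.1 a, h.2.1 b, Rad]
  ring

/-! ### Splitting off the coordinate `0` from the first factor -/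

theorem cons_cyc {N s : ℕ} (I : Fin (s + 1) → Fin (N + 1)) (a : Fin (s + 1)) (h : I a = 0) :
    (Fin.cons (α := fun _ => Fin (N + 1)) 0 (I ∘ a.succAbove) : Fin (s + 1) → Fin (N + 1)) =
      I ∘ a.cycleRange.symm := by
  funext i
  refine Fin.cases ?_ (fun l => ?_) i
  · rw [Fin.cons_zero, Function.comp_apply, Fin.cycleRange_symm_zero, h]
  · rw [Fin.cons_succ, Function.comp_apply, Function.comp_apply, Fin.cycleRange_symm_succ]

theorem sign_cyc {s : ℕ} (a : Fin (s + 1)) :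
    ((Equiv.Perm.sign a.cycleRange.symm : ℤ) : ℂ) = (-1 : ℂ) ^ (a : ℕ) := by
  rw [Equiv.Perm.sign_symm, Fin.sign_cycleRange]
  simp

theorem wedge_single {N s : ℕ}
    (T : (Fin (s + 1) → Fin (N + 1)) → (Fin (s + 1) → Fin (N + 1)) → ℂ)
    (altL : ∀ (π : Equiv.Perm (Fin (s + 1))) I J,
      T (I ∘ π) J = ((Equiv.Perm.sign π : ℤ) : ℂ) * T I J)
    (altR : ∀ (π : Equiv.Perm (Fin (s + 1))) I J,
      T I (J ∘ π) = ((Equiv.Perm.sign π : ℤ) : ℂ) * T I J)
    (I J : Fin (s + 1) → Fin (N + 1)) (hI : Function.Injective I) (hJ : Function.Injective J)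
    (a0 b0 : Fin (s + 1)) (ha : I a0 = 0) (hb : J b0 = 0) :
    wedge (fun I J => T (Fin.cons (α := fun _ => Fin (N + 1)) 0 I)
      (Fin.cons (α := fun _ => Fin (N + 1)) 0 J))
      (Matrix.single 0 0 1 : Matrix (Fin (N + 1)) (Fin (N + 1)) ℂ) I J =
      ((s + 1 : ℂ) ^ 2)⁻¹ * T I J := by
  unfold wedge
  congr 1
  rw [Finset.sum_eq_single a0, Finset.sum_eq_single b0]
  · rw [ha, hb, Matrix.single_apply, if_pos ⟨rfl, rfl⟩, mul_one]
    beta_reduce
    rw [cons_cyc I a0 ha, cons_cyc J b0 hb, altL, altR, sign_cyc, sign_cyc]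
    have h1 : (-1 : ℂ) ^ (a0 : ℕ) * (-1 : ℂ) ^ (a0 : ℕ) = 1 := by
      rw [← mul_pow]
      simp
    have h2 : (-1 : ℂ) ^ (b0 : ℕ) * (-1 : ℂ) ^ (b0 : ℕ) = 1 := by
      rw [← mul_pow]
      simp
    calc (-1 : ℂ) ^ ((a0 : ℕ) + (b0 : ℕ)) * ((-1 : ℂ) ^ (a0 : ℕ) * ((-1 : ℂ) ^ (b0 : ℕ) * T I J))
        = ((-1 : ℂ) ^ (a0 : ℕ) * (-1 : ℂ) ^ (a0 : ℕ)) * ((-1 : ℂ) ^ (b0 : ℕ) *
          (-1 : ℂ) ^ (b0 : ℕ)) * T I J := by rw [pow_add]; ring
      _ = T I J := by rw [h1, h2, one_mul, one_mul]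
  · intro b _ hbb
    have : ¬ ((0 : Fin (N + 1)) = I a0 ∧ (0 : Fin (N + 1)) = J b) := by
      rintro ⟨_, h2⟩
      exact hbb (hJ (h2.symm.trans hb.symm))
    rw [Matrix.single_apply, if_neg this, mul_zero]
  · intro h
    exact absurd (Finset.mem_univ _) h
  · intro a _ haa
    refine Finset.sum_eq_zero fun b _ => ?_
    have : ¬ ((0 : Fin (N + 1)) = I a ∧ (0 : Fin (N + 1)) = J b) := by
      rintro ⟨h1, _⟩
      exact haa (hI (h1.symm.trans ha.symm))
    rw [Matrix.single_apply, if_neg this, mul_zero]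
  · intro h
    exact absurd (Finset.mem_univ _) h

theorem split {N s m : ℕ} (hA3 : T_A3) (hA11 : T_A11)
    (T : (Fin (s + 1) → Fin (N + 1)) → (Fin (s + 1) → Fin (N + 1)) → ℂ)
    (altL : ∀ (π : Equiv.Perm (Fin (s + 1))) I J,
      T (I ∘ π) J = ((Equiv.Perm.sign π : ℤ) : ℂ) * T I J)
    (altR : ∀ (π : Equiv.Perm (Fin (s + 1))) I J,
      T I (J ∘ π) = ((Equiv.Perm.sign π : ℤ) : ℂ) * T I J)
    (H : Fin m → Matrix (Fin (N + 1)) (Fin (N + 1)) ℂ)
    (hr : ∀ j b, H j 0 b = 0 ∧ H j b 0 = 0) :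
    mixD T H = (s + 1 : ℂ) ^ 2 * mixD (ι := Fin N)
      (fun I J => T (Fin.cons (α := fun _ => Fin (N + 1)) 0 (fun l => (I l).succ))
        (Fin.cons (α := fun _ => Fin (N + 1)) 0 (fun l => (J l).succ)))
      (fun j => (H j).submatrix Fin.succ Fin.succ) := by
  have hs : (s + 1 : ℂ) ≠ 0 := by
    have : ((s + 1 : ℕ) : ℂ) ≠ 0 := Nat.cast_ne_zero.2 (Nat.succ_ne_zero s)
    push_cast at this
    exact this
  have h1 := hA11 N s m (fun I J => T (Fin.cons (α := fun _ => Fin (N + 1)) 0 I)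
    (Fin.cons (α := fun _ => Fin (N + 1)) 0 J)) H
  have h2 := hA3 (Fin (N + 1)) s m (fun I J => T (Fin.cons (α := fun _ => Fin (N + 1)) 0 I)
    (Fin.cons (α := fun _ => Fin (N + 1)) 0 J)) (Matrix.single 0 0 1) H
  rw [h1] at h2
  rw [← h2]
  unfold mixD
  rw [Finset.mul_sum]
  refine Finset.sum_congr rfl fun e _ => ?_
  rw [Finset.mul_sum]
  refine Finset.sum_congr rfl fun e' _ => ?_
  have hz : ∀ e e' : (Fin (s + 1) ⊕ Fin m) ≃ Fin (N + 1), ∀ j : Fin m,
      (e (Sum.inr j) = 0 ∨ e' (Sum.inr j) = 0) →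
      ∏ j, H j (e (Sum.inr j)) (e' (Sum.inr j)) = 0 := by
    intro e e' j h
    refine Finset.prod_eq_zero (Finset.mem_univ j) ?_
    rcases h with h | h
    · rw [h]
      exact (hr j _).1
    · rw [h]
      exact (hr j _).2
  rcases hx : e.symm 0 with a0 | j
  · rcases hy : e'.symm 0 with b0 | j
    · have ha : e (Sum.inl a0) = 0 := by rw [← hx, Equiv.apply_symm_apply]
      have hb : e' (Sum.inl b0) = 0 := by rw [← hy, Equiv.apply_symm_apply]
      rw [wedge_single T altL altR (fun i => e (Sum.inl i)) (fun i => e' (Sum.inl i))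
        (fun i i' h => Sum.inl_injective (e.injective h))
        (fun i i' h => Sum.inl_injective (e'.injective h)) a0 b0 ha hb]
      field_simp
    · have hb : e' (Sum.inr j) = 0 := by rw [← hy, Equiv.apply_symm_apply]
      rw [hz e e' j (Or.inr hb)]
      ring
  · have ha : e (Sum.inr j) = 0 := by rw [← hx, Equiv.apply_symm_apply]
    rw [hz e e' j (Or.inl ha)]
    ring

/-! ### The pull-back -/

theorem pull_alt {N M p : ℕ} (G : Fin N → MvPolynomial (Fin M) ℂ) (S : Form (Fin N) p)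
    (z : Fin M → ℂ)
    (altL : ∀ (π : Equiv.Perm (Fin p)) I J,
      S (ev G z) (I ∘ π) J = ((Equiv.Perm.sign π : ℤ) : ℂ) * S (ev G z) I J)
    (altR : ∀ (π : Equiv.Perm (Fin p)) I J,
      S (ev G z) I (J ∘ π) = ((Equiv.Perm.sign π : ℤ) : ℂ) * S (ev G z) I J) :
    (∀ (π : Equiv.Perm (Fin p)) I J,
      pull G S z (I ∘ π) J = ((Equiv.Perm.sign π : ℤ) : ℂ) * pull G S z I J) ∧
    (∀ (π : Equiv.Perm (Fin p)) I J,
      pull G S z I (J ∘ π) = ((Equiv.Perm.sign π : ℤ) : ℂ) * pull G S z I J) := by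
  constructor
  · intro π I J
    unfold pull
    rw [Finset.mul_sum]
    symm
    refine Fintype.sum_equiv (Equiv.arrowCongr π.symm (Equiv.refl (Fin N))) _ _ fun I' => ?_
    have e1 : (Equiv.arrowCongr π.symm (Equiv.refl (Fin N))) I' = I' ∘ π := by
      funext l
      simp [Equiv.arrowCongr]
    rw [e1, Finset.mul_sum]
    refine Finset.sum_congr rfl fun J' _ => ?_
    rw [altL]
    have e2 : ∏ l, jac G z ((I' ∘ π) l) ((I ∘ π) l) = ∏ l, jac G z (I' l) (I l) :=
      Equiv.prod_comp π (fun l => jac G z (I' l) (I l))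
    rw [e2]
    ring
  · intro π I J
    unfold pull
    rw [Finset.mul_sum]
    refine Finset.sum_congr rfl fun I' _ => ?_
    rw [Finset.mul_sum]
    symm
    refine Fintype.sum_equiv (Equiv.arrowCongr π.symm (Equiv.refl (Fin N))) _ _ fun J' => ?_
    have e1 : (Equiv.arrowCongr π.symm (Equiv.refl (Fin N))) J' = J' ∘ π := by
      funext l
      simp [Equiv.arrowCongr]
    rw [e1, altR]
    have e2 : ∏ l, conj (jac G z ((J' ∘ π) l) ((J ∘ π) l)) = ∏ l, conj (jac G z (J' l) (J l)) :=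
      Equiv.prod_comp π (fun l => conj (jac G z (J' l) (J l)))
    rw [e2]
    ring

theorem jac_GP0 {N : ℕ} (Φ : Fin N → MvPolynomial (Fin N) ℂ) (X : Fin N → Fin N → ℂ)
    (i j i' : Fin N) (z : Fin (N + 1) → ℂ) :
    jac (GP Φ X i j) z i' 0 = if i' = i then ev Φ (tl z) j else 0 := by
  have h0 : ∀ k : Fin N, MvPolynomial.pderiv (0 : Fin (N + 1))
      (MvPolynomial.rename Fin.succ (Φ k)) = 0 := by
    intro k
    apply MvPolynomial.pderiv_eq_zero_of_notMem_vars
    intro h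
    have h1 := MvPolynomial.vars_rename Fin.succ (Φ k) h
    rw [Finset.mem_image] at h1
    obtain ⟨a, _, ha⟩ := h1
    exact Fin.succ_ne_zero a ha
  unfold jac GP
  rw [map_sum, map_sum]
  have h2 : ∀ k : Fin N, MvPolynomial.eval z (MvPolynomial.pderiv (0 : Fin (N + 1))
      ((if i' = i ∧ k = j then MvPolynomial.X 0 else MvPolynomial.C (X i' k)) *
        MvPolynomial.rename Fin.succ (Φ k))) =
      if k = j then (if i' = i then ev Φ (tl z) j else 0) else 0 := by
    intro k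
    rw [MvPolynomial.pderiv_mul, h0, mul_zero, add_zero, map_mul, MvPolynomial.eval_rename]
    by_cases hk : k = j
    · subst hk
      by_cases hi : i' = i
      · subst hi
        simp only [and_self, if_true, MvPolynomial.pderiv_X_self, map_one, one_mul]
        rfl
      · simp only [hi, false_and, if_false, MvPolynomial.pderiv_C, map_zero, zero_mul, if_true]
    · simp only [hk, and_false, if_false, MvPolynomial.pderiv_C, map_zero, zero_mul]
  rw [Finset.sum_congr rfl fun k _ => h2 k]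
  simp

theorem prod_expand {N s : ℕ} (A : Fin N → Fin N → ℂ) (P : Matrix (Fin N) (Fin N) ℂ)
    (K I : Fin s → Fin N) :
    ∏ l, ∑ k, A (K l) k * P k (I l) =
      ∑ I' : Fin s → Fin N, (∏ l, A (K l) (I' l)) * ∏ l, P (I' l) (I l) := by
  rw [Finset.prod_univ_sum, Fintype.piFinset_univ]
  exact Finset.sum_congr rfl fun I' _ => Finset.prod_mul_distrib

theorem entry {k s : ℕ} (Φ : Fin (k + 1) → MvPolynomial (Fin (k + 1)) ℂ)
    (S : Form (Fin (k + 1)) (s + 1)) (X : Fin (k + 1) → Fin (k + 1) → ℂ) (j : Fin (k + 1))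
    (t : ℂ) (x : Fin (k + 1) → ℂ) (I J : Fin s → Fin (k + 1)) :
    pull (GP Φ X 0 j) S (ct t x) (Fin.cons (α := fun _ => Fin (k + 2)) 0 (fun l => (I l).succ))
      (Fin.cons (α := fun _ => Fin (k + 2)) 0 (fun l => (J l).succ)) =
    pull Φ (Wj S (rep X 0 j t) j) x I J := by
  obtain ⟨A, hA⟩ : ∃ A, A = rep X 0 j t := ⟨_, rfl⟩
  obtain ⟨P, hP⟩ : ∃ P, P = jac Φ x := ⟨_, rfl⟩
  obtain ⟨y, hy⟩ : ∃ y, y = ev Φ x := ⟨_, rfl⟩
  have hY : ev (GP Φ X 0 j) (ct t x) = (Matrix.of A).mulVec y := by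
    rw [ev_GP', tl_ct, hA, hy]
    rfl
  have hj0 : ∀ i', jac (GP Φ X 0 j) (ct t x) i' 0 = if i' = 0 then y j else 0 := by
    intro i'
    rw [jac_GP0, tl_ct, hy]
  have hj1 : ∀ i' b, jac (GP Φ X 0 j) (ct t x) i' b.succ = ∑ l, A i' l * P l b := by
    intro i' b
    rw [jac_GP, tl_ct, hA, hP]
    rfl
  have hL : pull (GP Φ X 0 j) S (ct t x)
      (Fin.cons (α := fun _ => Fin (k + 2)) 0 (fun l => (I l).succ))
      (Fin.cons (α := fun _ => Fin (k + 2)) 0 (fun l => (J l).succ)) =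
      ∑ K : Fin s → Fin (k + 1), ∑ L : Fin s → Fin (k + 1),
        S ((Matrix.of A).mulVec y) (Fin.cons (α := fun _ => Fin (k + 1)) 0 K)
          (Fin.cons (α := fun _ => Fin (k + 1)) 0 L) *
        (y j * ∏ l, ∑ i, A (K l) i * P i (I l)) *
        (conj (y j) * ∏ l, conj (∑ i, A (L l) i * P i (J l))) := by
    unfold pull
    rw [hY]
    have hinj : Function.Injective (fun K : Fin s → Fin (k + 1) =>
        (Fin.cons (α := fun _ => Fin (k + 1)) 0 K : Fin (s + 1) → Fin (k + 1))) :=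
      fun K K' h => Fin.cons_right_injective (α := fun _ => Fin (k + 1)) 0 h
    have hran : ∀ I' : Fin (s + 1) → Fin (k + 1), I' ∉ Set.range
        (fun K : Fin s → Fin (k + 1) =>
          (Fin.cons (α := fun _ => Fin (k + 1)) 0 K : Fin (s + 1) → Fin (k + 1))) → I' 0 ≠ 0 := by
      intro I' h h0
      apply h
      refine ⟨Fin.tail I', ?_⟩
      have := Fin.cons_self_tail I'
      rw [h0] at this
      exact this
    symm
    refine Fintype.sum_of_injective _ hinj _ _ ?_ ?_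
    · intro I' hI'
      refine Finset.sum_eq_zero fun J' _ => ?_
      rw [Fin.prod_univ_succ, Fin.cons_zero, hj0, if_neg (hran I' hI'), zero_mul, mul_zero,
        zero_mul]
    · intro K
      refine Fintype.sum_of_injective _ hinj _ _ ?_ ?_
      · intro J' hJ'
        rw [Fin.prod_univ_succ (fun l => conj (jac (GP Φ X 0 j) (ct t x) (J' l) _)), Fin.cons_zero,
          hj0, if_neg (hran J' hJ'), map_zero, zero_mul, mul_zero]
      · intro L
        rw [Fin.prod_univ_succ, Fin.prod_univ_succ]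
        simp only [Fin.cons_zero, Fin.cons_succ, hj0, hj1, if_true]
  rw [hL]
  unfold pull Wj
  rw [← hA, ← hP, ← hy]
  have hconj : ∀ K I : Fin s → Fin (k + 1), ∏ l, conj (∑ i, A (K l) i * P i (I l)) =
      ∑ I' : Fin s → Fin (k + 1), (∏ l, conj (A (K l) (I' l))) * ∏ l, conj (P (I' l) (I l)) := by
    intro K I
    rw [← map_prod, prod_expand, map_sum]
    refine Finset.sum_congr rfl fun I' _ => ?_
    rw [map_mul, map_prod, map_prod]
  simp only [hconj, prod_expand]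
  have hnorm : ((‖y j‖ ^ 2 : ℝ) : ℂ) = y j * conj (y j) := by
    rw [Complex.mul_conj, Complex.normSq_eq_norm_sq]
  rw [hnorm]
  obtain ⟨F, hF⟩ : ∃ F : (Fin s → Fin (k + 1)) → (Fin s → Fin (k + 1)) → (Fin s → Fin (k + 1)) →
      (Fin s → Fin (k + 1)) → ℂ, F = fun K L I' J' =>
        S ((Matrix.of A).mulVec y) (Fin.cons (α := fun _ => Fin (k + 1)) 0 K)
          (Fin.cons (α := fun _ => Fin (k + 1)) 0 L) * (y j * conj (y j)) *
        ((∏ l, A (K l) (I' l)) * ∏ l, P (I' l) (I l)) *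
        ((∏ l, conj (A (L l) (J' l))) * ∏ l, conj (P (J' l) (J l))) := ⟨_, rfl⟩
  calc _ = ∑ K : Fin s → Fin (k + 1), ∑ L : Fin s → Fin (k + 1), ∑ I' : Fin s → Fin (k + 1),
        ∑ J' : Fin s → Fin (k + 1), F K L I' J' := by
        refine Finset.sum_congr rfl fun K _ => Finset.sum_congr rfl fun L _ => ?_
        rw [hF]
        simp only [Finset.mul_sum, Finset.sum_mul]
        rw [Finset.sum_comm]
        refine Finset.sum_congr rfl fun I' _ => Finset.sum_congr rfl fun J' _ => ?_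
        ring
    _ = ∑ I' : Fin s → Fin (k + 1), ∑ J' : Fin s → Fin (k + 1), ∑ K : Fin s → Fin (k + 1),
        ∑ L : Fin s → Fin (k + 1), F K L I' J' := by
        calc _ = ∑ K : Fin s → Fin (k + 1), ∑ I' : Fin s → Fin (k + 1),
              ∑ L : Fin s → Fin (k + 1), ∑ J' : Fin s → Fin (k + 1), F K L I' J' :=
              Finset.sum_congr rfl fun K _ => Finset.sum_comm
          _ = ∑ I' : Fin s → Fin (k + 1), ∑ K : Fin s → Fin (k + 1),
              ∑ L : Fin s → Fin (k + 1), ∑ J' : Fin s → Fin (k + 1), F K L I' J' :=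
              Finset.sum_comm
          _ = ∑ I' : Fin s → Fin (k + 1), ∑ K : Fin s → Fin (k + 1),
              ∑ J' : Fin s → Fin (k + 1), ∑ L : Fin s → Fin (k + 1), F K L I' J' :=
              Finset.sum_congr rfl fun I' _ => Finset.sum_congr rfl fun K _ => Finset.sum_comm
          _ = _ := Finset.sum_congr rfl fun I' _ => Finset.sum_comm
    _ = _ := by
        refine Finset.sum_congr rfl fun I' _ => Finset.sum_congr rfl fun J' _ => ?_
        rw [hF]
        simp only [Finset.mul_sum, Finset.sum_mul]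
        refine Finset.sum_congr rfl fun K _ => Finset.sum_congr rfl fun L _ => ?_
        ring

theorem pf_RW (hA3 : T_A3) (hA11 : T_A11) (hW9 : T_W9) : T_RW := by
  intro k s q _
  refine ⟨((s : ℝ) + 1) ^ 2, by positivity, ?_⟩
  intro D Φ hD hΦ S hS X j v hv t x hx hdet
  have hy : ev Φ x ≠ 0 := fun h => hx (hΦ.nd x h)
  have hY : ev (GP Φ X 0 j) (ct t x) ≠ 0 := by
    rw [ev_GP', tl_ct]
    intro h
    exact hy (Matrix.eq_zero_of_mulVec_eq_zero hdet h)
  have halt := pull_alt (GP Φ X 0 j) S (ct t x)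
    (fun π I J => hS.cp.altL _ hY π I J) (fun π I J => hS.cp.altR _ hY π I J)
  have hz : tl (ct t x) ≠ 0 := by
    rw [tl_ct]
    exact hx
  unfold QT Q
  rw [split hA3 hA11 (pull (GP Φ X 0 j) S (ct t x)) halt.1 halt.2]
  · have e1 : (fun l => ((Fin.snoc (α := fun _ => Matrix (Fin (k + 2)) (Fin (k + 2)) ℂ)
        (fun l => hessR (fun z => v l (tl z)) (ct t x)) (RadT (ct t x)) :
          Fin (q + 1 + 1) → Matrix (Fin (k + 2)) (Fin (k + 2)) ℂ) l).submatrix Fin.succ Fin.succ) =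
        Fin.snoc (α := fun _ => Matrix (Fin (k + 1)) (Fin (k + 1)) ℂ)
          (fun l => hessR (v l) x) (Rad x) := by
      funext l
      refine Fin.lastCases ?_ (fun i => ?_) l
      · rw [Fin.snoc_last, Fin.snoc_last, rad_sub hW9 hz, tl_ct]
      · rw [Fin.snoc_castSucc, Fin.snoc_castSucc, hessR_tl, tl_ct]
    rw [e1]
    have e2 : (fun I J : Fin s → Fin (k + 1) => pull (GP Φ X 0 j) S (ct t x)
        (Fin.cons (α := fun _ => Fin (k + 2)) 0 (fun l => (I l).succ))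
        (Fin.cons (α := fun _ => Fin (k + 2)) 0 (fun l => (J l).succ))) =
        pull Φ (Wj S (rep X 0 j t) j) x := by
      funext I J
      exact entry Φ S X j t x I J
    rw [e2]
    have e3 : ((s : ℂ) + 1) ^ 2 = ((((s : ℝ) + 1) ^ 2 : ℝ) : ℂ) := by
      push_cast
      rfl
    rw [e3, Complex.re_ofReal_mul]
  · intro l b
    refine Fin.lastCases ?_ (fun i => ?_) l
    · rw [Fin.snoc_last]
      exact rad_row _ b
    · rw [Fin.snoc_castSucc]
      exact hess_row _ _ b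

end

end Pool.Agent.H51.EHD
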